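import Mathlib
import Pool.Agent.H25.PolySat

set_option autoImplicit false

namespace Pool.Agent.Results.MP_90a930_lc.Counter

open Finset

variable {V : Type} [Fintype V] [DecidableEq V]

/-- `M` is a set of edges of `G`, no two of which share a vertex. -/
def IsMatching (G : SimpleGraph V) (M : Finset (Sym2 V)) : Prop :=
  (∀ e ∈ M, e ∈ G.edgeSet) ∧ ∀ e ∈ M, ∀ e' ∈ M, e ≠ e' → ∀ v, ¬ (v ∈ e ∧ v ∈ e')

def Schedulable (G : SimpleGraph V) (f : Sym2 V → ℕ) : Prop :=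
  ∃ S : ℕ → Finset (Sym2 V), (∀ t, IsMatching G (S t)) ∧
    ∀ e ∈ G.edgeSet, ∀ t, ∃ i < f e, e ∈ S (t + i)

noncomputable def polyDensity (G : SimpleGraph V) [DecidableRel G.Adj] (f : Sym2 V → ℕ) : ℝ :=
  ⨆ z : {z : Sym2 V → ℝ // (∀ e, 0 ≤ z e ∧ z e ≤ 1) ∧ ∑ e ∈ G.edgeFinset, z e = 1},
    1 / ⨆ M : {M : Finset (Sym2 V) // Maximal (IsMatching G) M}, ∑ e ∈ M.1, z.1 e * f e

def ed : Fin 12 → Sym2 (Fin 9) :=
  ![s(2, 3), s(3, 4), s(4, 0), s(5, 7), s(6, 8), s(7, 1), s(8, 5), s(1, 6), s(0, 5), s(2, 7),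
    s(3, 8), s(4, 1)]

def G0 : SimpleGraph (Fin 9) where
  Adj a b := ∃ i, ed i = s(a, b)
  symm := ⟨fun a b ⟨i, h⟩ => ⟨i, h.trans Sym2.eq_swap⟩⟩
  loopless := ⟨by decide⟩

instance : DecidableRel G0.Adj := fun a b => inferInstanceAs (Decidable (∃ i, ed i = s(a, b)))

def f0 (e : Sym2 (Fin 9)) : ℕ := ∑ i : Fin 12, if ed i = e then Pool.Agent.H25.PolySat.fr i else 0

theorem ed_inj : Function.Injective ed := by decide

theorem f0_ed : ∀ i, f0 (ed i) = Pool.Agent.H25.PolySat.fr i := by decide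

theorem mem_edge (e : Sym2 (Fin 9)) : e ∈ G0.edgeSet ↔ ∃ i, ed i = e := by
  induction e using Sym2.ind with
  | _ a b => rfl

theorem edges : G0.edgeFinset = univ.image ed := by
  ext e
  simp [mem_edge]

theorem le_sup (z : Sym2 (Fin 9) → ℝ) (hz : ∀ e, 0 ≤ z e) (I : Finset (Fin 12))
    (hI : ∀ i ∈ I, ∀ j ∈ I, i ≠ j → ∀ v, ¬ (v ∈ ed i ∧ v ∈ ed j)) :
    ∑ i ∈ I, z (ed i) * Pool.Agent.H25.PolySat.fr i ≤
      ⨆ M : {M : Finset (Sym2 (Fin 9)) // Maximal (IsMatching G0) M}, ∑ e ∈ M.1, z e * f0 e := by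
  have h1 : IsMatching G0 (I.image ed) := by
    constructor
    · intro e he
      obtain ⟨i, _, rfl⟩ := mem_image.1 he
      exact (mem_edge _).2 ⟨i, rfl⟩
    · intro e he e' he' hne
      obtain ⟨i, hi, rfl⟩ := mem_image.1 he
      obtain ⟨j, hj, rfl⟩ := mem_image.1 he'
      exact hI i hi j hj (fun h => hne (congrArg ed h))
  obtain ⟨M, hM, hmax⟩ := Finite.exists_le_maximal h1
  refine le_trans ?_ (le_ciSup (f := fun M : {M : Finset (Sym2 (Fin 9)) //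
    Maximal (IsMatching G0) M} => ∑ e ∈ M.1, z e * f0 e) (Finite.bddAbove_range _) ⟨M, hmax⟩)
  refine le_trans (le_of_eq ?_) (sum_le_sum_of_subset_of_nonneg hM
    (fun e _ _ => mul_nonneg (hz e) (Nat.cast_nonneg _)))
  rw [sum_image (fun i _ j _ h => ed_inj h)]
  simp only [f0_ed]

theorem result : ∃ (n : ℕ) (G : SimpleGraph (Fin n)) (_ : DecidableRel G.Adj)
    (f : Sym2 (Fin n) → ℕ), G.edgeSet.Nonempty ∧ (∀ e ∈ G.edgeSet, 1 ≤ f e) ∧
      polyDensity G f ≤ 47 / 60 ∧ ¬ Schedulable G f := by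
  refine ⟨9, G0, inferInstance, f0, ⟨ed 0, (mem_edge _).2 ⟨0, rfl⟩⟩, ?_, ?_, ?_⟩
  · intro e he
    obtain ⟨i, rfl⟩ := (mem_edge _).1 he
    rw [f0_ed]
    revert i
    decide
  · refine Real.iSup_le (fun z => ?_) (by norm_num)
    obtain ⟨z, hz, hs⟩ := z
    have hz0 : ∀ e, 0 ≤ z e := fun e => (hz e).1
    rw [edges, sum_image (fun i _ j _ h => ed_inj h)] at hs
    have a1 := le_sup z hz0 {0, 2, 5, 6} (by decide)
    have a2 := le_sup z hz0 {1, 4, 5, 8} (by decide)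
    have a3 := le_sup z hz0 {1, 6, 7, 9} (by decide)
    have a4 := le_sup z hz0 {1, 7, 8, 9} (by decide)
    have a5 := le_sup z hz0 {2, 3, 7, 10} (by decide)
    have a6 := le_sup z hz0 {0, 3, 4, 11} (by decide)
    have a7 := le_sup z hz0 {8, 9, 10, 11} (by decide)
    obtain ⟨m, hm⟩ : ∃ m, m = ⨆ M : {M : Finset (Sym2 (Fin 9)) // Maximal (IsMatching G0) M},
      ∑ e ∈ M.1, z e * f0 e := ⟨_, rfl⟩
    obtain ⟨y, hy⟩ : ∃ y : Fin 12 → ℝ, y = fun i => z (ed i) := ⟨_, rfl⟩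
    have hy1 : ∀ i, z (ed i) = y i := fun i => by rw [hy]
    have hy0 : ∀ i, 0 ≤ y i := fun i => hy1 i ▸ hz0 _
    simp only [← hm, hy1] at a1 a2 a3 a4 a5 a6 a7 hs ⊢
    simp (disch := decide) only [sum_insert, sum_singleton] at a1 a2 a3 a4 a5 a6 a7
    simp only [Fin.sum_univ_succ, Fin.sum_univ_zero] at hs
    norm_num [Pool.Agent.H25.PolySat.fr] at a1 a2 a3 a4 a5 a6 a7 hs
    have h60 : (60 : ℝ) / 47 ≤ m := by
      have := hy0 0; have := hy0 1; have := hy0 2; have := hy0 3; have := hy0 4; have := hy0 5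
      have := hy0 6; have := hy0 7; have := hy0 8; have := hy0 9; have := hy0 10; have := hy0 11
      have hs' : y 0 + (y 1 + (y 2 + (y 3 + (y 4 + (y 5 + (y 6 + (y 7 + (y 8 + (y 9 + (y 10 +
        y 11)))))))))) = 1 := hs
      linarith
    rw [div_le_iff₀ (by linarith)]
    linarith
  · rintro ⟨S, h1, h2⟩
    refine Pool.Agent.H25.PolySat.unsat (fun t e => ∃ h : e < 12, ed ⟨e, h⟩ ∈ S t) ?_ ?_
    · have key : ∀ p ∈ Pool.Agent.H25.PolySat.pairs, ∀ i j : Fin 12, i.1 = p.1 → j.1 = p.2 →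
          ed i ≠ ed j ∧ ∃ v, v ∈ ed i ∧ v ∈ ed j := by decide
      rintro t p hp ⟨⟨ha, ha'⟩, hb, hb'⟩
      obtain ⟨h3, v, hv⟩ := key p hp ⟨_, ha⟩ ⟨_, hb⟩ rfl rfl
      exact (h1 t).2 _ ha' _ hb' h3 v hv
    · intro e he t
      obtain ⟨i, hi, h⟩ := h2 (ed ⟨e, he⟩) ((mem_edge _).2 ⟨_, rfl⟩) t
      rw [f0_ed] at hi
      exact ⟨i, hi, he, h⟩

end Pool.Agent.Results.MP_90a930_lc.Counter
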